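import Mathlib
import Pool.Agent.Lib.StarQ.FinalQ

set_option autoImplicit false

namespace Pool.Agent.Results.MP_5c592f_ag.AsymptoticAllDimensions

/-- Question 2: over an algebraically closed field of any characteristic, if a finite set `S` of
points in projective `N`-space has Waldschmidt constant `e(S) = (a(S,1)+N-1)/N`, then `S` lies in a
hyperplane or is a star configuration. -/
theorem result :
  ∀ (k : Type) [Field k] [IsAlgClosed k] (N : ℕ), 1 ≤ N →
  ∀ (S : Finset (Projectivization k (Fin (N+1) → k))) (a : ℕ → ℕ),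
    (∀ m : ℕ, 1 ≤ m → IsLeast {d : ℕ | ∃ F : MvPolynomial (Fin (N+1)) k, F ≠ 0 ∧ F.IsHomogeneous d ∧
        ∀ p ∈ S, F ∈ (Ideal.span {G : MvPolynomial (Fin (N+1)) k |
            G.IsHomogeneous 1 ∧ MvPolynomial.eval p.rep G = 0}) ^ m} (a m)) →
    Filter.Tendsto (fun m : ℕ => (a m : ℝ) / (m : ℝ)) Filter.atTop
      (nhds (((a 1 : ℝ) + (N : ℝ) - 1) / (N : ℝ))) →
    (∃ φ : (Fin (N+1) → k) →ₗ[k] k, φ ≠ 0 ∧ ∀ p ∈ S, φ p.rep = 0) ∨
    (∃ (s : ℕ) (c : Fin s → ((Fin (N+1) → k) →ₗ[k] k)), N ≤ s ∧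
      (∀ t : Finset (Fin s), t.card ≤ N + 1 → LinearIndepOn k c (t : Set (Fin s))) ∧
      ∀ p : Projectivization k (Fin (N+1) → k),
        p ∈ S ↔ N ≤ {j : Fin s | c j p.rep = 0}.ncard) := by
  intro k _ _ N hN S a ha hlim
  exact Pool.Agent.Lib.StarQ.concl_of_lim hN ha hlim

end Pool.Agent.Results.MP_5c592f_ag.AsymptoticAllDimensions
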