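import Mathlib
import Pool.Agent.Lib.Chud.Main

set_option autoImplicit false

namespace Pool.Agent.Results.MP_5c592f_ag.ChudnovskyDemailly

/-- The bounds of Chudnovsky (`m = 1`) and Demailly (all `m`) for every finite nonempty set `S` of
points of projective `N`-space over an algebraically closed field of any characteristic: for all
`m, M ≥ 1`, `(a(S,m)+N-1)/(m+N-1) ≤ a(S,M)/M`. -/
theorem result :
  ∀ (k : Type) [Field k] [IsAlgClosed k] (N : ℕ), 1 ≤ N →
  ∀ (S : Finset (Projectivization k (Fin (N+1) → k))), S.Nonempty → ∀ (a : ℕ → ℕ),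
    (∀ m : ℕ, 1 ≤ m → IsLeast {d : ℕ | ∃ F : MvPolynomial (Fin (N+1)) k, F ≠ 0 ∧ F.IsHomogeneous d ∧
        ∀ p ∈ S, F ∈ (Ideal.span {G : MvPolynomial (Fin (N+1)) k |
            G.IsHomogeneous 1 ∧ MvPolynomial.eval p.rep G = 0}) ^ m} (a m)) →
    ∀ m M : ℕ, 1 ≤ m → 1 ≤ M →
      ((a m : ℚ) + (N : ℚ) - 1) / ((m : ℚ) + (N : ℚ) - 1) ≤ (a M : ℚ) / (M : ℚ) := by
  intro k _ _ N hN S hS a ha m M hm hM
  obtain ⟨F, hF0, hF, hFS⟩ := (ha M hM).1
  have hne : Nonempty S := hS.to_subtype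
  have h1 := Pool.Agent.Lib.Chud.demailly hN (ι := S) (fun p => p.1.rep)
    (fun p => p.1.rep_nonzero) (fun _ => 1) (fun _ => le_rfl) m (a m)
    (fun d G hG hG0 hGS => (ha m hm).2 ⟨G, hG0, hG, fun p hp => by
      have := hGS ⟨p, hp⟩
      rwa [mul_one] at this⟩) M ((m + N - 1) * a M) (F := F ^ (m + N - 1))
    (by have := hF.pow (m + N - 1); rwa [mul_comm] at this) (pow_ne_zero _ hF0)
    (fun p => by
      have h2 := Ideal.pow_mem_pow (hFS p.1 p.2) (m + N - 1)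
      rw [← pow_mul] at h2
      rw [mul_one]
      exact h2)
  have hM0 : (0 : ℚ) < M := by exact_mod_cast hM
  have e1 : ((m + N - 1 : ℕ) : ℚ) = (m : ℚ) + N - 1 := by
    rw [Nat.cast_sub (by omega)]
    push_cast
    ring
  have e2 : ((a m + N - 1 : ℕ) : ℚ) = (a m : ℚ) + N - 1 := by
    rw [Nat.cast_sub (by omega)]
    push_cast
    ring
  have hm0 : (0 : ℚ) < (m : ℚ) + N - 1 := by
    rw [← e1]
    exact_mod_cast (by omega : 0 < m + N - 1)
  rw [div_le_div_iff₀ hm0 hM0]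
  have h3 : ((M * (a m + N - 1) : ℕ) : ℚ) ≤ (((m + N - 1) * a M : ℕ) : ℚ) := by exact_mod_cast h1
  push_cast [e1, e2] at h3
  linarith

end Pool.Agent.Results.MP_5c592f_ag.ChudnovskyDemailly
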